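import Mathlib
import Pool.Agent.N972.P17.Defs
import Pool.Agent.N575.P15.HE

/-!
# The Hecke relations at `2` and `3` for the two ternary forms of level `17`
-/

set_option autoImplicit false
set_option linter.all false

namespace Pool.Agent.N575.P17

open Finset
open Pool.Agent.N969.P15 (V3 ep2)
open Pool.Agent.N972.P17 (ip1 ip2 vec1 vec2 rr cc S_HE2 S_HE3)
open Pool.Agent.N575.P15 (ext3)

theorem sq_le1 (v : V3) (i : Fin 3) : v i ^ 2 ≤ ip1 v v := by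
  have h : ip1 v v = 3 * (v 0 - v 1) ^ 2 + 2 * (v 0 - v 2) ^ 2 + 4 * (v 1 - v 2) ^ 2 +
      2 * v 0 ^ 2 + 4 * v 1 ^ 2 + 14 * v 2 ^ 2 := by
    unfold ip1; ring
  have s0 := sq_nonneg (v 0 - v 1)
  have s1 := sq_nonneg (v 0 - v 2)
  have s2 := sq_nonneg (v 1 - v 2)
  have t0 := sq_nonneg (v 0)
  have t1 := sq_nonneg (v 1)
  have t2 := sq_nonneg (v 2)
  rw [h]
  fin_cases i
  · show v 0 ^ 2 ≤ _
    linarith
  · show v 1 ^ 2 ≤ _
    linarith
  · show v 2 ^ 2 ≤ _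
    linarith

theorem sq_le2 (v : V3) (i : Fin 3) : v i ^ 2 ≤ ip2 v v := by
  have h : ip2 v v = (v 0 - v 1) ^ 2 + (v 0 - v 2) ^ 2 + 11 * (v 1 - v 2) ^ 2 +
      v 0 ^ 2 + 11 * v 1 ^ 2 + 11 * v 2 ^ 2 := by
    unfold ip2; ring
  have s0 := sq_nonneg (v 0 - v 1)
  have s1 := sq_nonneg (v 0 - v 2)
  have s2 := sq_nonneg (v 1 - v 2)
  have t0 := sq_nonneg (v 0)
  have t1 := sq_nonneg (v 1)
  have t2 := sq_nonneg (v 2)
  rw [h]
  fin_cases i
  · show v 0 ^ 2 ≤ _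
    linarith
  · show v 1 ^ 2 ≤ _
    linarith
  · show v 2 ^ 2 ≤ _
    linarith

theorem mem_box {n x : ℤ} (h : x ^ 2 ≤ n) : x ∈ Icc (-n) n := by
  rw [mem_Icc]
  constructor
  · nlinarith [Int.le_self_sq (-x), sq_nonneg x]
  · nlinarith [Int.le_self_sq x, sq_nonneg x]

theorem mem_vec1 (n : ℤ) (v : V3) : v ∈ vec1 n ↔ ip1 v v = n := by
  unfold vec1
  rw [mem_filter, Fintype.mem_piFinset]
  exact ⟨fun h => h.2, fun h => ⟨fun i => mem_box (h ▸ sq_le1 v i), h⟩⟩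

theorem mem_vec2 (n : ℤ) (v : V3) : v ∈ vec2 n ↔ ip2 v v = n := by
  unfold vec2
  rw [mem_filter, Fintype.mem_piFinset]
  exact ⟨fun h => h.2, fun h => ⟨fun i => mem_box (h ▸ sq_le2 v i), h⟩⟩

/-- counting the image of a similitude -/
theorem card_img {S S' : Finset V3} {q q' : V3 → ℤ} {n f : ℤ} (hf : f ≠ 0)
    (hS : ∀ v, v ∈ S ↔ q v = n) (hS' : ∀ w, w ∈ S' ↔ q' w = f * n) (m g : V3 → V3)
    (A : V3 → Prop) [DecidablePred A] (h1 : ∀ v, q' (m v) = f * q v) (h2 : ∀ v, A (m v))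
    (h3 : ∀ v, g (m v) = v) (h4 : ∀ w, A w → m (g w) = w) :
    ∑ w ∈ S', (if A w then (1 : ℤ) else 0) = S.card := by
  have h5 : S.card = (S'.filter A).card := by
    refine card_bij (fun v _ => m v) ?_ ?_ ?_
    · intro v hv
      rw [hS] at hv
      rw [mem_filter, hS', h1, hv]
      exact ⟨rfl, h2 v⟩
    · intro v _ w _ h
      rw [← h3 v, ← h3 w, h]
    · intro w hw
      rw [mem_filter, hS'] at hw
      refine ⟨g w, ?_, h4 w hw.2⟩
      rw [hS]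
      have h6 := h1 (g w)
      rw [h4 w hw.2, hw.1] at h6
      exact (mul_left_cancel₀ hf h6).symm
  rw [h5, card_filter]
  push_cast
  rfl

/-- the vectors divisible by `2` -/
def E2 (w : V3) : Prop := (2 : ℤ) ∣ w 0 ∧ (2 : ℤ) ∣ w 1 ∧ (2 : ℤ) ∣ w 2

instance : DecidablePred E2 := fun w => by unfold E2; infer_instance

/-- the vectors divisible by `3` -/
def E3 (w : V3) : Prop := (3 : ℤ) ∣ w 0 ∧ (3 : ℤ) ∣ w 1 ∧ (3 : ℤ) ∣ w 2

instance : DecidablePred E3 := fun w => by unfold E3; infer_instance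

theorem card_E2 {S S' : Finset V3} {q : V3 → ℤ} {n : ℤ} (hS : ∀ v, v ∈ S ↔ q v = n)
    (hS' : ∀ w, w ∈ S' ↔ q w = 4 * n) (hq : ∀ v, q (fun i => 2 * v i) = 4 * q v) :
    ∑ w ∈ S', (if E2 w then (1 : ℤ) else 0) = S.card := by
  refine card_img (f := 4) (by norm_num) hS hS' (fun v i => 2 * v i) (fun w i => w i / 2) E2 hq
    ?_ ?_ ?_
  · intro v
    exact ⟨⟨_, rfl⟩, ⟨_, rfl⟩, ⟨_, rfl⟩⟩
  · intro v
    funext i
    simp
  · rintro w ⟨h0, h1, h2⟩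
    refine ext3 ?_ ?_ ?_
    · show 2 * (w 0 / 2) = w 0
      omega
    · show 2 * (w 1 / 2) = w 1
      omega
    · show 2 * (w 2 / 2) = w 2
      omega

theorem card_E3 {S S' : Finset V3} {q : V3 → ℤ} {n : ℤ} (hS : ∀ v, v ∈ S ↔ q v = n)
    (hS' : ∀ w, w ∈ S' ↔ q w = 9 * n) (hq : ∀ v, q (fun i => 3 * v i) = 9 * q v) :
    ∑ w ∈ S', (if E3 w then (1 : ℤ) else 0) = S.card := by
  refine card_img (f := 9) (by norm_num) hS hS' (fun v i => 3 * v i) (fun w i => w i / 3) E3 hq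
    ?_ ?_ ?_
  · intro v
    exact ⟨⟨_, rfl⟩, ⟨_, rfl⟩, ⟨_, rfl⟩⟩
  · intro v
    funext i
    simp
  · rintro w ⟨h0, h1, h2⟩
    refine ext3 ?_ ?_ ?_
    · show 3 * (w 0 / 3) = w 0
      omega
    · show 3 * (w 1 / 3) = w 1
      omega
    · show 3 * (w 2 / 3) = w 2
      omega

/-- a similitude of factor `4` from the lattice 1 to the lattice 1 -/
def m410 (v : V3) : V3 := ![-2 * v 0 + v 1 - v 2, v 1 - 3 * v 2, -v 1 - v 2]

/-- its inverse -/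
def g410 (w : V3) : V3 := ![(-2 * w 0 + w 1 - w 2) / 4, (w 1 - 3 * w 2) / 4, (-w 1 - w 2) / 4]

/-- its image -/
def A410 (w : V3) : Prop := (4 : ℤ) ∣ -2 * w 0 + w 1 - w 2 ∧ (4 : ℤ) ∣ w 1 - 3 * w 2 ∧
  (4 : ℤ) ∣ -w 1 - w 2

instance : DecidablePred A410 := fun w => by unfold A410; infer_instance

theorem c410 (n : ℤ) : ∑ w ∈ vec1 (4 * n), (if A410 w then (1 : ℤ) else 0) = (vec1 n).card := by
  refine card_img (f := 4) (by norm_num) (mem_vec1 n) (mem_vec1 (4 * n)) m410 g410 A410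
    ?_ ?_ ?_ ?_
  · intro v
    simp [m410, ip1, ip1]
    ring
  · intro v
    simp only [A410, m410, Matrix.cons_val_zero, Matrix.cons_val_one, Matrix.cons_val]
    refine ⟨?_, ?_, ?_⟩ <;> omega
  · intro v
    refine ext3 ?_ ?_ ?_ <;>
      simp only [g410, m410, Matrix.cons_val_zero, Matrix.cons_val_one, Matrix.cons_val] <;> omega
  · rintro w ⟨h0, h1, h2⟩
    refine ext3 ?_ ?_ ?_ <;>
      simp only [g410, m410, Matrix.cons_val_zero, Matrix.cons_val_one, Matrix.cons_val] <;> omega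

/-- a similitude of factor `4` from the lattice 1 to the lattice 1 -/
def m411 (v : V3) : V3 := ![-2 * v 0 + 2 * v 1, 2 * v 1, v 1 - 2 * v 2]

/-- its inverse -/
def g411 (w : V3) : V3 := ![(-2 * w 0 + 2 * w 1) / 4, (2 * w 1) / 4, (w 1 - 2 * w 2) / 4]

/-- its image -/
def A411 (w : V3) : Prop := (4 : ℤ) ∣ -2 * w 0 + 2 * w 1 ∧ (4 : ℤ) ∣ 2 * w 1 ∧
  (4 : ℤ) ∣ w 1 - 2 * w 2

instance : DecidablePred A411 := fun w => by unfold A411; infer_instance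

theorem c411 (n : ℤ) : ∑ w ∈ vec1 (4 * n), (if A411 w then (1 : ℤ) else 0) = (vec1 n).card := by
  refine card_img (f := 4) (by norm_num) (mem_vec1 n) (mem_vec1 (4 * n)) m411 g411 A411
    ?_ ?_ ?_ ?_
  · intro v
    simp [m411, ip1, ip1]
    ring
  · intro v
    simp only [A411, m411, Matrix.cons_val_zero, Matrix.cons_val_one, Matrix.cons_val]
    refine ⟨?_, ?_, ?_⟩ <;> omega
  · intro v
    refine ext3 ?_ ?_ ?_ <;>
      simp only [g411, m411, Matrix.cons_val_zero, Matrix.cons_val_one, Matrix.cons_val] <;> omega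
  · rintro w ⟨h0, h1, h2⟩
    refine ext3 ?_ ?_ ?_ <;>
      simp only [g411, m411, Matrix.cons_val_zero, Matrix.cons_val_one, Matrix.cons_val] <;> omega

/-- a similitude of factor `4` from the lattice 2 to the lattice 1 -/
def m412 (v : V3) : V3 := ![-v 0 - 2 * v 1 + 3 * v 2, -v 0 - v 2, -2 * v 1]

/-- its inverse -/
def g412 (w : V3) : V3 := ![(-w 0 - 3 * w 1 + w 2) / 4, (-2 * w 2) / 4, (w 0 - w 1 - w 2) / 4]

/-- its image -/
def A412 (w : V3) : Prop := (4 : ℤ) ∣ -w 0 - 3 * w 1 + w 2 ∧ (4 : ℤ) ∣ -2 * w 2 ∧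
  (4 : ℤ) ∣ w 0 - w 1 - w 2

instance : DecidablePred A412 := fun w => by unfold A412; infer_instance

theorem c412 (n : ℤ) : ∑ w ∈ vec1 (4 * n), (if A412 w then (1 : ℤ) else 0) = (vec2 n).card := by
  refine card_img (f := 4) (by norm_num) (mem_vec2 n) (mem_vec1 (4 * n)) m412 g412 A412
    ?_ ?_ ?_ ?_
  · intro v
    simp [m412, ip2, ip1]
    ring
  · intro v
    simp only [A412, m412, Matrix.cons_val_zero, Matrix.cons_val_one, Matrix.cons_val]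
    refine ⟨?_, ?_, ?_⟩ <;> omega
  · intro v
    refine ext3 ?_ ?_ ?_ <;>
      simp only [g412, m412, Matrix.cons_val_zero, Matrix.cons_val_one, Matrix.cons_val] <;> omega
  · rintro w ⟨h0, h1, h2⟩
    refine ext3 ?_ ?_ ?_ <;>
      simp only [g412, m412, Matrix.cons_val_zero, Matrix.cons_val_one, Matrix.cons_val] <;> omega

/-- a similitude of factor `4` from the lattice 1 to the lattice 2 -/
def m420 (v : V3) : V3 := ![-2 * v 0 - 2 * v 1 + 2 * v 2, -v 0 + v 1 + v 2, -v 0 + v 1 - v 2]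

/-- its inverse -/
def g420 (w : V3) : V3 := ![(-w 0 - 2 * w 2) / 4, (-w 0 + 2 * w 1) / 4, (2 * w 1 - 2 * w 2) / 4]

/-- its image -/
def A420 (w : V3) : Prop := (4 : ℤ) ∣ -w 0 - 2 * w 2 ∧ (4 : ℤ) ∣ -w 0 + 2 * w 1 ∧
  (4 : ℤ) ∣ 2 * w 1 - 2 * w 2

instance : DecidablePred A420 := fun w => by unfold A420; infer_instance

theorem c420 (n : ℤ) : ∑ w ∈ vec2 (4 * n), (if A420 w then (1 : ℤ) else 0) = (vec1 n).card := by
  refine card_img (f := 4) (by norm_num) (mem_vec1 n) (mem_vec2 (4 * n)) m420 g420 A420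
    ?_ ?_ ?_ ?_
  · intro v
    simp [m420, ip1, ip2]
    ring
  · intro v
    simp only [A420, m420, Matrix.cons_val_zero, Matrix.cons_val_one, Matrix.cons_val]
    refine ⟨?_, ?_, ?_⟩ <;> omega
  · intro v
    refine ext3 ?_ ?_ ?_ <;>
      simp only [g420, m420, Matrix.cons_val_zero, Matrix.cons_val_one, Matrix.cons_val] <;> omega
  · rintro w ⟨h0, h1, h2⟩
    refine ext3 ?_ ?_ ?_ <;>
      simp only [g420, m420, Matrix.cons_val_zero, Matrix.cons_val_one, Matrix.cons_val] <;> omega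

/-- a similitude of factor `4` from the lattice 1 to the lattice 2 -/
def m421 (v : V3) : V3 := ![-v 0 - 3 * v 1 + v 2, -2 * v 2, v 0 - v 1 - v 2]

/-- its inverse -/
def g421 (w : V3) : V3 := ![(-w 0 - 2 * w 1 + 3 * w 2) / 4, (-w 0 - w 2) / 4, (-2 * w 1) / 4]

/-- its image -/
def A421 (w : V3) : Prop := (4 : ℤ) ∣ -w 0 - 2 * w 1 + 3 * w 2 ∧ (4 : ℤ) ∣ -w 0 - w 2 ∧
  (4 : ℤ) ∣ -2 * w 1

instance : DecidablePred A421 := fun w => by unfold A421; infer_instance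

theorem c421 (n : ℤ) : ∑ w ∈ vec2 (4 * n), (if A421 w then (1 : ℤ) else 0) = (vec1 n).card := by
  refine card_img (f := 4) (by norm_num) (mem_vec1 n) (mem_vec2 (4 * n)) m421 g421 A421
    ?_ ?_ ?_ ?_
  · intro v
    simp [m421, ip1, ip2]
    ring
  · intro v
    simp only [A421, m421, Matrix.cons_val_zero, Matrix.cons_val_one, Matrix.cons_val]
    refine ⟨?_, ?_, ?_⟩ <;> omega
  · intro v
    refine ext3 ?_ ?_ ?_ <;>
      simp only [g421, m421, Matrix.cons_val_zero, Matrix.cons_val_one, Matrix.cons_val] <;> omega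
  · rintro w ⟨h0, h1, h2⟩
    refine ext3 ?_ ?_ ?_ <;>
      simp only [g421, m421, Matrix.cons_val_zero, Matrix.cons_val_one, Matrix.cons_val] <;> omega

/-- a similitude of factor `4` from the lattice 1 to the lattice 2 -/
def m422 (v : V3) : V3 := ![v 0 + 3 * v 1 - v 2, -v 0 + v 1 + v 2, 2 * v 2]

/-- its inverse -/
def g422 (w : V3) : V3 := ![(w 0 - 3 * w 1 + 2 * w 2) / 4, (w 0 + w 1) / 4, (2 * w 2) / 4]

/-- its image -/
def A422 (w : V3) : Prop := (4 : ℤ) ∣ w 0 - 3 * w 1 + 2 * w 2 ∧ (4 : ℤ) ∣ w 0 + w 1 ∧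
  (4 : ℤ) ∣ 2 * w 2

instance : DecidablePred A422 := fun w => by unfold A422; infer_instance

theorem c422 (n : ℤ) : ∑ w ∈ vec2 (4 * n), (if A422 w then (1 : ℤ) else 0) = (vec1 n).card := by
  refine card_img (f := 4) (by norm_num) (mem_vec1 n) (mem_vec2 (4 * n)) m422 g422 A422
    ?_ ?_ ?_ ?_
  · intro v
    simp [m422, ip1, ip2]
    ring
  · intro v
    simp only [A422, m422, Matrix.cons_val_zero, Matrix.cons_val_one, Matrix.cons_val]
    refine ⟨?_, ?_, ?_⟩ <;> omega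
  · intro v
    refine ext3 ?_ ?_ ?_ <;>
      simp only [g422, m422, Matrix.cons_val_zero, Matrix.cons_val_one, Matrix.cons_val] <;> omega
  · rintro w ⟨h0, h1, h2⟩
    refine ext3 ?_ ?_ ?_ <;>
      simp only [g422, m422, Matrix.cons_val_zero, Matrix.cons_val_one, Matrix.cons_val] <;> omega

/-- a similitude of factor `9` from the lattice 1 to the lattice 1 -/
def m910 (v : V3) : V3 := ![3 * v 0, 2 * v 0 - 3 * v 1, v 0 - 3 * v 2]

/-- its inverse -/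
def g910 (w : V3) : V3 := ![(3 * w 0) / 9, (2 * w 0 - 3 * w 1) / 9, (w 0 - 3 * w 2) / 9]

/-- its image -/
def A910 (w : V3) : Prop := (9 : ℤ) ∣ 3 * w 0 ∧ (9 : ℤ) ∣ 2 * w 0 - 3 * w 1 ∧
  (9 : ℤ) ∣ w 0 - 3 * w 2

instance : DecidablePred A910 := fun w => by unfold A910; infer_instance

theorem c910 (n : ℤ) : ∑ w ∈ vec1 (9 * n), (if A910 w then (1 : ℤ) else 0) = (vec1 n).card := by
  refine card_img (f := 9) (by norm_num) (mem_vec1 n) (mem_vec1 (9 * n)) m910 g910 A910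
    ?_ ?_ ?_ ?_
  · intro v
    simp [m910, ip1, ip1]
    ring
  · intro v
    simp only [A910, m910, Matrix.cons_val_zero, Matrix.cons_val_one, Matrix.cons_val]
    refine ⟨?_, ?_, ?_⟩ <;> omega
  · intro v
    refine ext3 ?_ ?_ ?_ <;>
      simp only [g910, m910, Matrix.cons_val_zero, Matrix.cons_val_one, Matrix.cons_val] <;> omega
  · rintro w ⟨h0, h1, h2⟩
    refine ext3 ?_ ?_ ?_ <;>
      simp only [g910, m910, Matrix.cons_val_zero, Matrix.cons_val_one, Matrix.cons_val] <;> omega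

/-- a similitude of factor `9` from the lattice 1 to the lattice 1 -/
def m911 (v : V3) : V3 := ![2 * v 0 - 5 * v 2, v 0 - 3 * v 1 - v 2, -v 0 - 2 * v 2]

/-- its inverse -/
def g911 (w : V3) : V3 := ![(2 * w 0 - 5 * w 2) / 9, (w 0 - 3 * w 1 - w 2) / 9, (-w 0 - 2 * w 2) / 9]

/-- its image -/
def A911 (w : V3) : Prop := (9 : ℤ) ∣ 2 * w 0 - 5 * w 2 ∧ (9 : ℤ) ∣ w 0 - 3 * w 1 - w 2 ∧
  (9 : ℤ) ∣ -w 0 - 2 * w 2

instance : DecidablePred A911 := fun w => by unfold A911; infer_instance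

theorem c911 (n : ℤ) : ∑ w ∈ vec1 (9 * n), (if A911 w then (1 : ℤ) else 0) = (vec1 n).card := by
  refine card_img (f := 9) (by norm_num) (mem_vec1 n) (mem_vec1 (9 * n)) m911 g911 A911
    ?_ ?_ ?_ ?_
  · intro v
    simp [m911, ip1, ip1]
    ring
  · intro v
    simp only [A911, m911, Matrix.cons_val_zero, Matrix.cons_val_one, Matrix.cons_val]
    refine ⟨?_, ?_, ?_⟩ <;> omega
  · intro v
    refine ext3 ?_ ?_ ?_ <;>
      simp only [g911, m911, Matrix.cons_val_zero, Matrix.cons_val_one, Matrix.cons_val] <;> omega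
  · rintro w ⟨h0, h1, h2⟩
    refine ext3 ?_ ?_ ?_ <;>
      simp only [g911, m911, Matrix.cons_val_zero, Matrix.cons_val_one, Matrix.cons_val] <;> omega

/-- a similitude of factor `9` from the lattice 1 to the lattice 1 -/
def m912 (v : V3) : V3 := ![v 0 - 4 * v 1, -2 * v 0 - v 1, -3 * v 2]

/-- its inverse -/
def g912 (w : V3) : V3 := ![(w 0 - 4 * w 1) / 9, (-2 * w 0 - w 1) / 9, (-3 * w 2) / 9]

/-- its image -/
def A912 (w : V3) : Prop := (9 : ℤ) ∣ w 0 - 4 * w 1 ∧ (9 : ℤ) ∣ -2 * w 0 - w 1 ∧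
  (9 : ℤ) ∣ -3 * w 2

instance : DecidablePred A912 := fun w => by unfold A912; infer_instance

theorem c912 (n : ℤ) : ∑ w ∈ vec1 (9 * n), (if A912 w then (1 : ℤ) else 0) = (vec1 n).card := by
  refine card_img (f := 9) (by norm_num) (mem_vec1 n) (mem_vec1 (9 * n)) m912 g912 A912
    ?_ ?_ ?_ ?_
  · intro v
    simp [m912, ip1, ip1]
    ring
  · intro v
    simp only [A912, m912, Matrix.cons_val_zero, Matrix.cons_val_one, Matrix.cons_val]
    refine ⟨?_, ?_, ?_⟩ <;> omega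
  · intro v
    refine ext3 ?_ ?_ ?_ <;>
      simp only [g912, m912, Matrix.cons_val_zero, Matrix.cons_val_one, Matrix.cons_val] <;> omega
  · rintro w ⟨h0, h1, h2⟩
    refine ext3 ?_ ?_ ?_ <;>
      simp only [g912, m912, Matrix.cons_val_zero, Matrix.cons_val_one, Matrix.cons_val] <;> omega

/-- a similitude of factor `9` from the lattice 2 to the lattice 1 -/
def m913 (v : V3) : V3 := ![-2 * v 0 - v 1, -v 0 + 4 * v 1 - 3 * v 2, -3 * v 2]

/-- its inverse -/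
def g913 (w : V3) : V3 := ![(-4 * w 0 - w 1 + w 2) / 9, (-w 0 + 2 * w 1 - 2 * w 2) / 9, (-3 * w 2) / 9]

/-- its image -/
def A913 (w : V3) : Prop := (9 : ℤ) ∣ -4 * w 0 - w 1 + w 2 ∧ (9 : ℤ) ∣ -w 0 + 2 * w 1 - 2 * w 2 ∧
  (9 : ℤ) ∣ -3 * w 2

instance : DecidablePred A913 := fun w => by unfold A913; infer_instance

theorem c913 (n : ℤ) : ∑ w ∈ vec1 (9 * n), (if A913 w then (1 : ℤ) else 0) = (vec2 n).card := by
  refine card_img (f := 9) (by norm_num) (mem_vec2 n) (mem_vec1 (9 * n)) m913 g913 A913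
    ?_ ?_ ?_ ?_
  · intro v
    simp [m913, ip2, ip1]
    ring
  · intro v
    simp only [A913, m913, Matrix.cons_val_zero, Matrix.cons_val_one, Matrix.cons_val]
    refine ⟨?_, ?_, ?_⟩ <;> omega
  · intro v
    refine ext3 ?_ ?_ ?_ <;>
      simp only [g913, m913, Matrix.cons_val_zero, Matrix.cons_val_one, Matrix.cons_val] <;> omega
  · rintro w ⟨h0, h1, h2⟩
    refine ext3 ?_ ?_ ?_ <;>
      simp only [g913, m913, Matrix.cons_val_zero, Matrix.cons_val_one, Matrix.cons_val] <;> omega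

/-- a similitude of factor `9` from the lattice 1 to the lattice 2 -/
def m920 (v : V3) : V3 := ![-4 * v 0 - v 1 + v 2, -v 0 + 2 * v 1 - 2 * v 2, -3 * v 2]

/-- its inverse -/
def g920 (w : V3) : V3 := ![(-2 * w 0 - w 1) / 9, (-w 0 + 4 * w 1 - 3 * w 2) / 9, (-3 * w 2) / 9]

/-- its image -/
def A920 (w : V3) : Prop := (9 : ℤ) ∣ -2 * w 0 - w 1 ∧ (9 : ℤ) ∣ -w 0 + 4 * w 1 - 3 * w 2 ∧
  (9 : ℤ) ∣ -3 * w 2

instance : DecidablePred A920 := fun w => by unfold A920; infer_instance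

theorem c920 (n : ℤ) : ∑ w ∈ vec2 (9 * n), (if A920 w then (1 : ℤ) else 0) = (vec1 n).card := by
  refine card_img (f := 9) (by norm_num) (mem_vec1 n) (mem_vec2 (9 * n)) m920 g920 A920
    ?_ ?_ ?_ ?_
  · intro v
    simp [m920, ip1, ip2]
    ring
  · intro v
    simp only [A920, m920, Matrix.cons_val_zero, Matrix.cons_val_one, Matrix.cons_val]
    refine ⟨?_, ?_, ?_⟩ <;> omega
  · intro v
    refine ext3 ?_ ?_ ?_ <;>
      simp only [g920, m920, Matrix.cons_val_zero, Matrix.cons_val_one, Matrix.cons_val] <;> omega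
  · rintro w ⟨h0, h1, h2⟩
    refine ext3 ?_ ?_ ?_ <;>
      simp only [g920, m920, Matrix.cons_val_zero, Matrix.cons_val_one, Matrix.cons_val] <;> omega

/-- a similitude of factor `9` from the lattice 1 to the lattice 2 -/
def m921 (v : V3) : V3 := ![4 * v 0 + v 1 - v 2, 3 * v 2, v 0 - 2 * v 1 + 2 * v 2]

/-- its inverse -/
def g921 (w : V3) : V3 := ![(2 * w 0 + w 2) / 9, (w 0 + 3 * w 1 - 4 * w 2) / 9, (3 * w 1) / 9]

/-- its image -/
def A921 (w : V3) : Prop := (9 : ℤ) ∣ 2 * w 0 + w 2 ∧ (9 : ℤ) ∣ w 0 + 3 * w 1 - 4 * w 2 ∧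
  (9 : ℤ) ∣ 3 * w 1

instance : DecidablePred A921 := fun w => by unfold A921; infer_instance

theorem c921 (n : ℤ) : ∑ w ∈ vec2 (9 * n), (if A921 w then (1 : ℤ) else 0) = (vec1 n).card := by
  refine card_img (f := 9) (by norm_num) (mem_vec1 n) (mem_vec2 (9 * n)) m921 g921 A921
    ?_ ?_ ?_ ?_
  · intro v
    simp [m921, ip1, ip2]
    ring
  · intro v
    simp only [A921, m921, Matrix.cons_val_zero, Matrix.cons_val_one, Matrix.cons_val]
    refine ⟨?_, ?_, ?_⟩ <;> omega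
  · intro v
    refine ext3 ?_ ?_ ?_ <;>
      simp only [g921, m921, Matrix.cons_val_zero, Matrix.cons_val_one, Matrix.cons_val] <;> omega
  · rintro w ⟨h0, h1, h2⟩
    refine ext3 ?_ ?_ ?_ <;>
      simp only [g921, m921, Matrix.cons_val_zero, Matrix.cons_val_one, Matrix.cons_val] <;> omega

/-- a similitude of factor `9` from the lattice 1 to the lattice 2 -/
def m922 (v : V3) : V3 := ![-3 * v 0 - 3 * v 1 + 3 * v 2, v 0 - 2 * v 1 - v 2, v 0 - 2 * v 1 + 2 * v 2]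

/-- its inverse -/
def g922 (w : V3) : V3 := ![(-2 * w 0 + 3 * w 2) / 9, (-w 0 - 3 * w 1) / 9, (-3 * w 1 + 3 * w 2) / 9]

/-- its image -/
def A922 (w : V3) : Prop := (9 : ℤ) ∣ -2 * w 0 + 3 * w 2 ∧ (9 : ℤ) ∣ -w 0 - 3 * w 1 ∧
  (9 : ℤ) ∣ -3 * w 1 + 3 * w 2

instance : DecidablePred A922 := fun w => by unfold A922; infer_instance

theorem c922 (n : ℤ) : ∑ w ∈ vec2 (9 * n), (if A922 w then (1 : ℤ) else 0) = (vec1 n).card := by
  refine card_img (f := 9) (by norm_num) (mem_vec1 n) (mem_vec2 (9 * n)) m922 g922 A922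
    ?_ ?_ ?_ ?_
  · intro v
    simp [m922, ip1, ip2]
    ring
  · intro v
    simp only [A922, m922, Matrix.cons_val_zero, Matrix.cons_val_one, Matrix.cons_val]
    refine ⟨?_, ?_, ?_⟩ <;> omega
  · intro v
    refine ext3 ?_ ?_ ?_ <;>
      simp only [g922, m922, Matrix.cons_val_zero, Matrix.cons_val_one, Matrix.cons_val] <;> omega
  · rintro w ⟨h0, h1, h2⟩
    refine ext3 ?_ ?_ ?_ <;>
      simp only [g922, m922, Matrix.cons_val_zero, Matrix.cons_val_one, Matrix.cons_val] <;> omega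

/-- a similitude of factor `9` from the lattice 2 to the lattice 2 -/
def m923 (v : V3) : V3 := ![-3 * v 0 + 2 * v 1 + 2 * v 2, 3 * v 2, 3 * v 1]

/-- its inverse -/
def g923 (w : V3) : V3 := ![(-3 * w 0 + 2 * w 1 + 2 * w 2) / 9, (3 * w 2) / 9, (3 * w 1) / 9]

/-- its image -/
def A923 (w : V3) : Prop := (9 : ℤ) ∣ -3 * w 0 + 2 * w 1 + 2 * w 2 ∧ (9 : ℤ) ∣ 3 * w 2 ∧
  (9 : ℤ) ∣ 3 * w 1

instance : DecidablePred A923 := fun w => by unfold A923; infer_instance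

theorem c923 (n : ℤ) : ∑ w ∈ vec2 (9 * n), (if A923 w then (1 : ℤ) else 0) = (vec2 n).card := by
  refine card_img (f := 9) (by norm_num) (mem_vec2 n) (mem_vec2 (9 * n)) m923 g923 A923
    ?_ ?_ ?_ ?_
  · intro v
    simp [m923, ip2, ip2]
    ring
  · intro v
    simp only [A923, m923, Matrix.cons_val_zero, Matrix.cons_val_one, Matrix.cons_val]
    refine ⟨?_, ?_, ?_⟩ <;> omega
  · intro v
    refine ext3 ?_ ?_ ?_ <;>
      simp only [g923, m923, Matrix.cons_val_zero, Matrix.cons_val_one, Matrix.cons_val] <;> omega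
  · rintro w ⟨h0, h1, h2⟩
    refine ext3 ?_ ?_ ?_ <;>
      simp only [g923, m923, Matrix.cons_val_zero, Matrix.cons_val_one, Matrix.cons_val] <;> omega

theorem red1_8 (w : V3) : ∃ a b c : Fin 8, (∃ p q r : ℤ, w 0 = 8 * p + (a.val : ℤ) ∧
    w 1 = 8 * q + (b.val : ℤ) ∧ w 2 = 8 * r + (c.val : ℤ)) ∧ ∃ K : ℤ, ip1 w w =
      ((7 * (a.val * a.val) + 11 * (b.val * b.val) + 4 * (c.val * c.val) + 10 * (a.val * b.val) + 12 * (a.val * c.val) + 8 * (b.val * c.val) : ℕ) : ℤ) + 16 * K := by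
  have key : ∀ x : ℤ, ∃ a : Fin 8, ∃ p : ℤ, x = 8 * p + (a.val : ℤ) := by
    intro x
    refine ⟨⟨(x % 8).toNat, by omega⟩, x / 8, ?_⟩
    show x = 8 * (x / 8) + ((x % 8).toNat : ℤ)
    omega
  obtain ⟨a, p, ha⟩ := key (w 0)
  obtain ⟨b, q, hb⟩ := key (w 1)
  obtain ⟨c, r, hc⟩ := key (w 2)
  refine ⟨a, b, c, ⟨p, q, r, ha, hb, hc⟩, 4 * ip1 ![p, q, r] ![p, q, r] +
    1 * ip1 ![p, q, r] ![(a.val : ℤ), (b.val : ℤ), (c.val : ℤ)] + ((1) * ((c.val : ℤ) * c.val) + (-1) * ((a.val : ℤ) * b.val) + (-1) * ((a.val : ℤ) * c.val) + (-1) * ((b.val : ℤ) * c.val)), ?_⟩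
  unfold ip1
  simp only [Matrix.cons_val_zero, Matrix.cons_val_one, Matrix.cons_val]
  rw [ha, hb, hc]
  push_cast
  ring

theorem red1_9 (w : V3) : ∃ a b c : Fin 9, (∃ p q r : ℤ, w 0 = 9 * p + (a.val : ℤ) ∧
    w 1 = 9 * q + (b.val : ℤ) ∧ w 2 = 9 * r + (c.val : ℤ)) ∧ ∃ K : ℤ, ip1 w w =
      ((7 * (a.val * a.val) + 2 * (b.val * b.val) + 2 * (c.val * c.val) + 3 * (a.val * b.val) + 5 * (a.val * c.val) + 1 * (b.val * c.val) : ℕ) : ℤ) + 9 * K := by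
  have key : ∀ x : ℤ, ∃ a : Fin 9, ∃ p : ℤ, x = 9 * p + (a.val : ℤ) := by
    intro x
    refine ⟨⟨(x % 9).toNat, by omega⟩, x / 9, ?_⟩
    show x = 9 * (x / 9) + ((x % 9).toNat : ℤ)
    omega
  obtain ⟨a, p, ha⟩ := key (w 0)
  obtain ⟨b, q, hb⟩ := key (w 1)
  obtain ⟨c, r, hc⟩ := key (w 2)
  refine ⟨a, b, c, ⟨p, q, r, ha, hb, hc⟩, 9 * ip1 ![p, q, r] ![p, q, r] +
    2 * ip1 ![p, q, r] ![(a.val : ℤ), (b.val : ℤ), (c.val : ℤ)] + ((1) * ((b.val : ℤ) * b.val) + (2) * ((c.val : ℤ) * c.val) + (-1) * ((a.val : ℤ) * b.val) + (-1) * ((a.val : ℤ) * c.val) + (-1) * ((b.val : ℤ) * c.val)), ?_⟩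
  unfold ip1
  simp only [Matrix.cons_val_zero, Matrix.cons_val_one, Matrix.cons_val]
  rw [ha, hb, hc]
  push_cast
  ring

theorem red1_3 (w : V3) : ∃ a b c : Fin 3, (∃ p q r : ℤ, w 0 = 3 * p + (a.val : ℤ) ∧
    w 1 = 3 * q + (b.val : ℤ) ∧ w 2 = 3 * r + (c.val : ℤ)) ∧ ∃ K : ℤ, ip1 w w =
      ((1 * (a.val * a.val) + 2 * (b.val * b.val) + 2 * (c.val * c.val) + 2 * (a.val * c.val) + 1 * (b.val * c.val) : ℕ) : ℤ) + 3 * K := by
  have key : ∀ x : ℤ, ∃ a : Fin 3, ∃ p : ℤ, x = 3 * p + (a.val : ℤ) := by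
    intro x
    refine ⟨⟨(x % 3).toNat, by omega⟩, x / 3, ?_⟩
    show x = 3 * (x / 3) + ((x % 3).toNat : ℤ)
    omega
  obtain ⟨a, p, ha⟩ := key (w 0)
  obtain ⟨b, q, hb⟩ := key (w 1)
  obtain ⟨c, r, hc⟩ := key (w 2)
  refine ⟨a, b, c, ⟨p, q, r, ha, hb, hc⟩, 3 * ip1 ![p, q, r] ![p, q, r] +
    2 * ip1 ![p, q, r] ![(a.val : ℤ), (b.val : ℤ), (c.val : ℤ)] + ((2) * ((a.val : ℤ) * a.val) + (3) * ((b.val : ℤ) * b.val) + (6) * ((c.val : ℤ) * c.val) + (-2) * ((a.val : ℤ) * b.val) + (-2) * ((a.val : ℤ) * c.val) + (-3) * ((b.val : ℤ) * c.val)), ?_⟩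
  unfold ip1
  simp only [Matrix.cons_val_zero, Matrix.cons_val_one, Matrix.cons_val]
  rw [ha, hb, hc]
  push_cast
  ring

theorem red2_8 (w : V3) : ∃ a b c : Fin 8, (∃ p q r : ℤ, w 0 = 8 * p + (a.val : ℤ) ∧
    w 1 = 8 * q + (b.val : ℤ) ∧ w 2 = 8 * r + (c.val : ℤ)) ∧ ∃ K : ℤ, ip2 w w =
      ((3 * (a.val * a.val) + 7 * (b.val * b.val) + 7 * (c.val * c.val) + 14 * (a.val * b.val) + 14 * (a.val * c.val) + 10 * (b.val * c.val) : ℕ) : ℤ) + 16 * K := by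
  have key : ∀ x : ℤ, ∃ a : Fin 8, ∃ p : ℤ, x = 8 * p + (a.val : ℤ) := by
    intro x
    refine ⟨⟨(x % 8).toNat, by omega⟩, x / 8, ?_⟩
    show x = 8 * (x / 8) + ((x % 8).toNat : ℤ)
    omega
  obtain ⟨a, p, ha⟩ := key (w 0)
  obtain ⟨b, q, hb⟩ := key (w 1)
  obtain ⟨c, r, hc⟩ := key (w 2)
  refine ⟨a, b, c, ⟨p, q, r, ha, hb, hc⟩, 4 * ip2 ![p, q, r] ![p, q, r] +
    1 * ip2 ![p, q, r] ![(a.val : ℤ), (b.val : ℤ), (c.val : ℤ)] + ((1) * ((b.val : ℤ) * b.val) + (1) * ((c.val : ℤ) * c.val) + (-1) * ((a.val : ℤ) * b.val) + (-1) * ((a.val : ℤ) * c.val) + (-2) * ((b.val : ℤ) * c.val)), ?_⟩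
  unfold ip2
  simp only [Matrix.cons_val_zero, Matrix.cons_val_one, Matrix.cons_val]
  rw [ha, hb, hc]
  push_cast
  ring

theorem red2_9 (w : V3) : ∃ a b c : Fin 9, (∃ p q r : ℤ, w 0 = 9 * p + (a.val : ℤ) ∧
    w 1 = 9 * q + (b.val : ℤ) ∧ w 2 = 9 * r + (c.val : ℤ)) ∧ ∃ K : ℤ, ip2 w w =
      ((3 * (a.val * a.val) + 5 * (b.val * b.val) + 5 * (c.val * c.val) + 7 * (a.val * b.val) + 7 * (a.val * c.val) + 5 * (b.val * c.val) : ℕ) : ℤ) + 9 * K := by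
  have key : ∀ x : ℤ, ∃ a : Fin 9, ∃ p : ℤ, x = 9 * p + (a.val : ℤ) := by
    intro x
    refine ⟨⟨(x % 9).toNat, by omega⟩, x / 9, ?_⟩
    show x = 9 * (x / 9) + ((x % 9).toNat : ℤ)
    omega
  obtain ⟨a, p, ha⟩ := key (w 0)
  obtain ⟨b, q, hb⟩ := key (w 1)
  obtain ⟨c, r, hc⟩ := key (w 2)
  refine ⟨a, b, c, ⟨p, q, r, ha, hb, hc⟩, 9 * ip2 ![p, q, r] ![p, q, r] +
    2 * ip2 ![p, q, r] ![(a.val : ℤ), (b.val : ℤ), (c.val : ℤ)] + ((2) * ((b.val : ℤ) * b.val) + (2) * ((c.val : ℤ) * c.val) + (-1) * ((a.val : ℤ) * b.val) + (-1) * ((a.val : ℤ) * c.val) + (-3) * ((b.val : ℤ) * c.val)), ?_⟩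
  unfold ip2
  simp only [Matrix.cons_val_zero, Matrix.cons_val_one, Matrix.cons_val]
  rw [ha, hb, hc]
  push_cast
  ring

theorem red2_3 (w : V3) : ∃ a b c : Fin 3, (∃ p q r : ℤ, w 0 = 3 * p + (a.val : ℤ) ∧
    w 1 = 3 * q + (b.val : ℤ) ∧ w 2 = 3 * r + (c.val : ℤ)) ∧ ∃ K : ℤ, ip2 w w =
      ((2 * (b.val * b.val) + 2 * (c.val * c.val) + 1 * (a.val * b.val) + 1 * (a.val * c.val) + 2 * (b.val * c.val) : ℕ) : ℤ) + 3 * K := by
  have key : ∀ x : ℤ, ∃ a : Fin 3, ∃ p : ℤ, x = 3 * p + (a.val : ℤ) := by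
    intro x
    refine ⟨⟨(x % 3).toNat, by omega⟩, x / 3, ?_⟩
    show x = 3 * (x / 3) + ((x % 3).toNat : ℤ)
    omega
  obtain ⟨a, p, ha⟩ := key (w 0)
  obtain ⟨b, q, hb⟩ := key (w 1)
  obtain ⟨c, r, hc⟩ := key (w 2)
  refine ⟨a, b, c, ⟨p, q, r, ha, hb, hc⟩, 3 * ip2 ![p, q, r] ![p, q, r] +
    2 * ip2 ![p, q, r] ![(a.val : ℤ), (b.val : ℤ), (c.val : ℤ)] + ((1) * ((a.val : ℤ) * a.val) + (7) * ((b.val : ℤ) * b.val) + (7) * ((c.val : ℤ) * c.val) + (-1) * ((a.val : ℤ) * b.val) + (-1) * ((a.val : ℤ) * c.val) + (-8) * ((b.val : ℤ) * c.val)), ?_⟩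
  unfold ip2
  simp only [Matrix.cons_val_zero, Matrix.cons_val_one, Matrix.cons_val]
  rw [ha, hb, hc]
  push_cast
  ring

theorem chk4_1 : ∀ a b c : Fin 8, ¬ (a.val % 2 = 0 ∧ b.val % 2 = 0 ∧ c.val % 2 = 0) →
    (7 * (a.val * a.val) + 11 * (b.val * b.val) + 4 * (c.val * c.val) + 10 * (a.val * b.val) + 12 * (a.val * c.val) + 8 * (b.val * c.val)) % 16 = 12 →
    (if (2 * a.val + b.val + 3 * c.val) % 4 = 0 ∧ (b.val + c.val) % 4 = 0 ∧ (3 * b.val + 3 * c.val) % 4 = 0 then (1 : ℤ) else 0)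
    + (if (2 * a.val + 2 * b.val) % 4 = 0 ∧ (2 * b.val) % 4 = 0 ∧ (b.val + 2 * c.val) % 4 = 0 then (1 : ℤ) else 0)
    + (if (3 * a.val + b.val + c.val) % 4 = 0 ∧ (2 * c.val) % 4 = 0 ∧ (a.val + 3 * b.val + 3 * c.val) % 4 = 0 then (1 : ℤ) else 0) = 1 := by
  decide

theorem chk4e_1 : ∀ a b c : Fin 8, (7 * (a.val * a.val) + 11 * (b.val * b.val) + 4 * (c.val * c.val) + 10 * (a.val * b.val) + 12 * (a.val * c.val) + 8 * (b.val * c.val)) % 4 = 3 →
    (if (b.val + c.val) % 2 = 0 then (1 : ℤ) else 0) +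
    (if (b.val) % 2 = 0 then (1 : ℤ) else 0) +
    (if (a.val + b.val + c.val) % 2 = 0 then (1 : ℤ) else 0) = 1 + (if (7 * (a.val * a.val) + 11 * (b.val * b.val) + 4 * (c.val * c.val) + 10 * (a.val * b.val) + 12 * (a.val * c.val) + 8 * (b.val * c.val)) % 8 = 7 then 1 else -1) := by
  decide

theorem chk9_1 : ∀ a b c : Fin 9, ¬ (a.val % 3 = 0 ∧ b.val % 3 = 0 ∧ c.val % 3 = 0) →
    (7 * (a.val * a.val) + 2 * (b.val * b.val) + 2 * (c.val * c.val) + 3 * (a.val * b.val) + 5 * (a.val * c.val) + 1 * (b.val * c.val)) % 9 = 0 →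
    (if (3 * a.val) % 9 = 0 ∧ (2 * a.val + 6 * b.val) % 9 = 0 ∧ (a.val + 6 * c.val) % 9 = 0 then (1 : ℤ) else 0)
    + (if (2 * a.val + 4 * c.val) % 9 = 0 ∧ (a.val + 6 * b.val + 8 * c.val) % 9 = 0 ∧ (8 * a.val + 7 * c.val) % 9 = 0 then (1 : ℤ) else 0)
    + (if (a.val + 5 * b.val) % 9 = 0 ∧ (7 * a.val + 8 * b.val) % 9 = 0 ∧ (6 * c.val) % 9 = 0 then (1 : ℤ) else 0)
    + (if (5 * a.val + 8 * b.val + c.val) % 9 = 0 ∧ (8 * a.val + 2 * b.val + 7 * c.val) % 9 = 0 ∧ (6 * c.val) % 9 = 0 then (1 : ℤ) else 0) = 1 := by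
  decide

theorem chk9e_1 : ∀ a b c : Fin 3, (1 * (a.val * a.val) + 2 * (b.val * b.val) + 2 * (c.val * c.val) + 2 * (a.val * c.val) + 1 * (b.val * c.val)) % 3 ≠ 0 →
    (if (2 * a.val) % 3 = 0 ∧ (a.val) % 3 = 0 then (1 : ℤ) else 0)
    + (if (2 * a.val + c.val) % 3 = 0 ∧ (a.val + 2 * c.val) % 3 = 0 then (1 : ℤ) else 0)
    + (if (a.val + 2 * b.val) % 3 = 0 then (1 : ℤ) else 0)
    + (if (2 * a.val + 2 * b.val + c.val) % 3 = 0 then (1 : ℤ) else 0) = 1 + (if (1 * (a.val * a.val) + 2 * (b.val * b.val) + 2 * (c.val * c.val) + 2 * (a.val * c.val) + 1 * (b.val * c.val)) % 3 = 2 then 1 else -1) := by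
  decide

theorem pt4_1 {n : ℕ} (hn : n % 4 = 3) {w : V3} (hw : ip1 w w = 4 * n) :
    (if A410 w then (1 : ℤ) else 0) + (if A411 w then (1 : ℤ) else 0) + (if A412 w then (1 : ℤ) else 0) = 1 + ep2 n * (if E2 w then 1 else 0) := by
  by_cases hE : E2 w
  · rw [if_pos hE]
    obtain ⟨v, hv0, hv1, hv2⟩ : ∃ v : V3, w 0 = 2 * v 0 ∧ w 1 = 2 * v 1 ∧ w 2 = 2 * v 2 := by
      obtain ⟨⟨x, hx⟩, ⟨y, hy⟩, ⟨z, hz⟩⟩ := hE
      exact ⟨![x, y, z], hx, hy, hz⟩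
    have hv : ip1 v v = n := by
      unfold ip1 at hw ⊢
      rw [hv0, hv1, hv2] at hw
      linarith
    obtain ⟨a, b, c, ⟨p, q, r, h0, h1, h2⟩, K, hK⟩ := red1_8 v
    have h := chk4e_1 a b c (by omega)
    have e0 : (A410 w) ↔ ((b.val + c.val) % 2 = 0) := by
      unfold A410; omega
    have e1 : (A411 w) ↔ ((b.val) % 2 = 0) := by
      unfold A411; omega
    have e2 : (A412 w) ↔ ((a.val + b.val + c.val) % 2 = 0) := by
      unfold A412; omega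
    simp only [e0, e1, e2]
    rw [h]
    unfold ep2
    have e9 : ((7 * (a.val * a.val) + 11 * (b.val * b.val) + 4 * (c.val * c.val) + 10 * (a.val * b.val) + 12 * (a.val * c.val) + 8 * (b.val * c.val)) % 8 = 7) ↔ n % 8 = 7 := by omega
    simp only [e9]
    ring
  · rw [if_neg hE]
    obtain ⟨a, b, c, ⟨p, q, r, h0, h1, h2⟩, K, hK⟩ := red1_8 w
    have h := chk4_1 a b c (by
      intro hh
      apply hE
      unfold E2
      omega) (by omega)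
    have e0 : (A410 w) ↔ ((2 * a.val + b.val + 3 * c.val) % 4 = 0 ∧ (b.val + c.val) % 4 = 0 ∧ (3 * b.val + 3 * c.val) % 4 = 0) := by
      unfold A410; omega
    have e1 : (A411 w) ↔ ((2 * a.val + 2 * b.val) % 4 = 0 ∧ (2 * b.val) % 4 = 0 ∧ (b.val + 2 * c.val) % 4 = 0) := by
      unfold A411; omega
    have e2 : (A412 w) ↔ ((3 * a.val + b.val + c.val) % 4 = 0 ∧ (2 * c.val) % 4 = 0 ∧ (a.val + 3 * b.val + 3 * c.val) % 4 = 0) := by
      unfold A412; omega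
    simp only [e0, e1, e2]
    rw [h]
    ring

theorem sum4_1 {n : ℕ} (hn : n % 4 = 3) :
    ((vec1 n).card : ℤ) + ((vec1 n).card : ℤ) + ((vec2 n).card : ℤ) = (vec1 (4 * n)).card + ep2 n * (vec1 n).card := by
  have h : ∑ w ∈ vec1 (4 * n), ((if A410 w then (1 : ℤ) else 0) + (if A411 w then (1 : ℤ) else 0) + (if A412 w then (1 : ℤ) else 0)) =
      ∑ w ∈ vec1 (4 * n), (1 + ep2 n * (if E2 w then 1 else 0)) :=
    sum_congr rfl fun w hw => pt4_1 hn ((mem_vec1 _ w).1 hw)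
  rw [sum_add_distrib, sum_add_distrib, c410, c411, c412, sum_add_distrib, ← mul_sum,
    card_E2 (mem_vec1 n) (mem_vec1 (4 * n)) (fun v => by unfold ip1; ring)] at h
  rw [h]
  simp

theorem pt9_1 {n : ℕ} (hn : ¬ 3 ∣ n) {w : V3} (hw : ip1 w w = 9 * n) :
    (if A910 w then (1 : ℤ) else 0) + (if A911 w then (1 : ℤ) else 0) + (if A912 w then (1 : ℤ) else 0) + (if A913 w then (1 : ℤ) else 0) = 1 + (if n % 3 = 2 then 1 else -1) * (if E3 w then 1 else 0) := by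
  by_cases hE : E3 w
  · rw [if_pos hE]
    obtain ⟨v, hv0, hv1, hv2⟩ : ∃ v : V3, w 0 = 3 * v 0 ∧ w 1 = 3 * v 1 ∧ w 2 = 3 * v 2 := by
      obtain ⟨⟨x, hx⟩, ⟨y, hy⟩, ⟨z, hz⟩⟩ := hE
      exact ⟨![x, y, z], hx, hy, hz⟩
    have hv : ip1 v v = n := by
      unfold ip1 at hw ⊢
      rw [hv0, hv1, hv2] at hw
      linarith
    obtain ⟨a, b, c, ⟨p, q, r, h0, h1, h2⟩, K, hK⟩ := red1_3 v
    have h := chk9e_1 a b c (by omega)
    have e0 : (A910 w) ↔ ((2 * a.val) % 3 = 0 ∧ (a.val) % 3 = 0) := by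
      unfold A910; omega
    have e1 : (A911 w) ↔ ((2 * a.val + c.val) % 3 = 0 ∧ (a.val + 2 * c.val) % 3 = 0) := by
      unfold A911; omega
    have e2 : (A912 w) ↔ ((a.val + 2 * b.val) % 3 = 0) := by
      unfold A912; omega
    have e3 : (A913 w) ↔ ((2 * a.val + 2 * b.val + c.val) % 3 = 0) := by
      unfold A913; omega
    simp only [e0, e1, e2, e3]
    rw [h]
    have e9 : ((1 * (a.val * a.val) + 2 * (b.val * b.val) + 2 * (c.val * c.val) + 2 * (a.val * c.val) + 1 * (b.val * c.val)) % 3 = 2) ↔ n % 3 = 2 := by omega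
    simp only [e9]
    ring
  · rw [if_neg hE]
    obtain ⟨a, b, c, ⟨p, q, r, h0, h1, h2⟩, K, hK⟩ := red1_9 w
    have h := chk9_1 a b c (by
      intro hh
      apply hE
      unfold E3
      omega) (by omega)
    have e0 : (A910 w) ↔ ((3 * a.val) % 9 = 0 ∧ (2 * a.val + 6 * b.val) % 9 = 0 ∧ (a.val + 6 * c.val) % 9 = 0) := by
      unfold A910; omega
    have e1 : (A911 w) ↔ ((2 * a.val + 4 * c.val) % 9 = 0 ∧ (a.val + 6 * b.val + 8 * c.val) % 9 = 0 ∧ (8 * a.val + 7 * c.val) % 9 = 0) := by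
      unfold A911; omega
    have e2 : (A912 w) ↔ ((a.val + 5 * b.val) % 9 = 0 ∧ (7 * a.val + 8 * b.val) % 9 = 0 ∧ (6 * c.val) % 9 = 0) := by
      unfold A912; omega
    have e3 : (A913 w) ↔ ((5 * a.val + 8 * b.val + c.val) % 9 = 0 ∧ (8 * a.val + 2 * b.val + 7 * c.val) % 9 = 0 ∧ (6 * c.val) % 9 = 0) := by
      unfold A913; omega
    simp only [e0, e1, e2, e3]
    rw [h]
    ring

theorem sum9_1 {n : ℕ} (hn : ¬ 3 ∣ n) :
    ((vec1 n).card : ℤ) + ((vec1 n).card : ℤ) + ((vec1 n).card : ℤ) + ((vec2 n).card : ℤ) = (vec1 (9 * n)).card +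
      (if n % 3 = 2 then 1 else -1) * (vec1 n).card := by
  have h : ∑ w ∈ vec1 (9 * n), ((if A910 w then (1 : ℤ) else 0) + (if A911 w then (1 : ℤ) else 0) + (if A912 w then (1 : ℤ) else 0) + (if A913 w then (1 : ℤ) else 0)) =
      ∑ w ∈ vec1 (9 * n), (1 + (if n % 3 = 2 then 1 else -1) * (if E3 w then 1 else 0)) :=
    sum_congr rfl fun w hw => pt9_1 hn ((mem_vec1 _ w).1 hw)
  rw [sum_add_distrib, sum_add_distrib, sum_add_distrib, c910, c911, c912, c913, sum_add_distrib, ← mul_sum,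
    card_E3 (mem_vec1 n) (mem_vec1 (9 * n)) (fun v => by unfold ip1; ring)] at h
  rw [h]
  simp

theorem chk4_2 : ∀ a b c : Fin 8, ¬ (a.val % 2 = 0 ∧ b.val % 2 = 0 ∧ c.val % 2 = 0) →
    (3 * (a.val * a.val) + 7 * (b.val * b.val) + 7 * (c.val * c.val) + 14 * (a.val * b.val) + 14 * (a.val * c.val) + 10 * (b.val * c.val)) % 16 = 12 →
    (if (3 * a.val + 2 * c.val) % 4 = 0 ∧ (3 * a.val + 2 * b.val) % 4 = 0 ∧ (2 * b.val + 2 * c.val) % 4 = 0 then (1 : ℤ) else 0)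
    + (if (3 * a.val + 2 * b.val + 3 * c.val) % 4 = 0 ∧ (3 * a.val + 3 * c.val) % 4 = 0 ∧ (2 * b.val) % 4 = 0 then (1 : ℤ) else 0)
    + (if (a.val + b.val + 2 * c.val) % 4 = 0 ∧ (a.val + b.val) % 4 = 0 ∧ (2 * c.val) % 4 = 0 then (1 : ℤ) else 0) = 1 := by
  decide

theorem chk4e_2 : ∀ a b c : Fin 8, (3 * (a.val * a.val) + 7 * (b.val * b.val) + 7 * (c.val * c.val) + 14 * (a.val * b.val) + 14 * (a.val * c.val) + 10 * (b.val * c.val)) % 4 = 3 →
    (if (a.val) % 2 = 0 then (1 : ℤ) else 0) +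
    (if (a.val + c.val) % 2 = 0 then (1 : ℤ) else 0) +
    (if (a.val + b.val) % 2 = 0 then (1 : ℤ) else 0) = 1 + (if (3 * (a.val * a.val) + 7 * (b.val * b.val) + 7 * (c.val * c.val) + 14 * (a.val * b.val) + 14 * (a.val * c.val) + 10 * (b.val * c.val)) % 8 = 7 then 1 else -1) := by
  decide

theorem chk9_2 : ∀ a b c : Fin 9, ¬ (a.val % 3 = 0 ∧ b.val % 3 = 0 ∧ c.val % 3 = 0) →
    (3 * (a.val * a.val) + 5 * (b.val * b.val) + 5 * (c.val * c.val) + 7 * (a.val * b.val) + 7 * (a.val * c.val) + 5 * (b.val * c.val)) % 9 = 0 →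
    (if (7 * a.val + 8 * b.val) % 9 = 0 ∧ (8 * a.val + 4 * b.val + 6 * c.val) % 9 = 0 ∧ (6 * c.val) % 9 = 0 then (1 : ℤ) else 0)
    + (if (2 * a.val + c.val) % 9 = 0 ∧ (a.val + 3 * b.val + 5 * c.val) % 9 = 0 ∧ (3 * b.val) % 9 = 0 then (1 : ℤ) else 0)
    + (if (7 * a.val + 3 * c.val) % 9 = 0 ∧ (8 * a.val + 6 * b.val) % 9 = 0 ∧ (6 * b.val + 3 * c.val) % 9 = 0 then (1 : ℤ) else 0)
    + (if (6 * a.val + 2 * b.val + 2 * c.val) % 9 = 0 ∧ (3 * c.val) % 9 = 0 ∧ (3 * b.val) % 9 = 0 then (1 : ℤ) else 0) = 1 := by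
  decide

theorem chk9e_2 : ∀ a b c : Fin 3, (2 * (b.val * b.val) + 2 * (c.val * c.val) + 1 * (a.val * b.val) + 1 * (a.val * c.val) + 2 * (b.val * c.val)) % 3 ≠ 0 →
    (if (a.val + 2 * b.val) % 3 = 0 ∧ (2 * a.val + b.val) % 3 = 0 then (1 : ℤ) else 0)
    + (if (2 * a.val + c.val) % 3 = 0 ∧ (a.val + 2 * c.val) % 3 = 0 then (1 : ℤ) else 0)
    + (if (a.val) % 3 = 0 ∧ (2 * a.val) % 3 = 0 then (1 : ℤ) else 0)
    + (if (2 * b.val + 2 * c.val) % 3 = 0 then (1 : ℤ) else 0) = 1 + (if (2 * (b.val * b.val) + 2 * (c.val * c.val) + 1 * (a.val * b.val) + 1 * (a.val * c.val) + 2 * (b.val * c.val)) % 3 = 2 then 1 else -1) := by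
  decide

theorem pt4_2 {n : ℕ} (hn : n % 4 = 3) {w : V3} (hw : ip2 w w = 4 * n) :
    (if A420 w then (1 : ℤ) else 0) + (if A421 w then (1 : ℤ) else 0) + (if A422 w then (1 : ℤ) else 0) = 1 + ep2 n * (if E2 w then 1 else 0) := by
  by_cases hE : E2 w
  · rw [if_pos hE]
    obtain ⟨v, hv0, hv1, hv2⟩ : ∃ v : V3, w 0 = 2 * v 0 ∧ w 1 = 2 * v 1 ∧ w 2 = 2 * v 2 := by
      obtain ⟨⟨x, hx⟩, ⟨y, hy⟩, ⟨z, hz⟩⟩ := hE
      exact ⟨![x, y, z], hx, hy, hz⟩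
    have hv : ip2 v v = n := by
      unfold ip2 at hw ⊢
      rw [hv0, hv1, hv2] at hw
      linarith
    obtain ⟨a, b, c, ⟨p, q, r, h0, h1, h2⟩, K, hK⟩ := red2_8 v
    have h := chk4e_2 a b c (by omega)
    have e0 : (A420 w) ↔ ((a.val) % 2 = 0) := by
      unfold A420; omega
    have e1 : (A421 w) ↔ ((a.val + c.val) % 2 = 0) := by
      unfold A421; omega
    have e2 : (A422 w) ↔ ((a.val + b.val) % 2 = 0) := by
      unfold A422; omega
    simp only [e0, e1, e2]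
    rw [h]
    unfold ep2
    have e9 : ((3 * (a.val * a.val) + 7 * (b.val * b.val) + 7 * (c.val * c.val) + 14 * (a.val * b.val) + 14 * (a.val * c.val) + 10 * (b.val * c.val)) % 8 = 7) ↔ n % 8 = 7 := by omega
    simp only [e9]
    ring
  · rw [if_neg hE]
    obtain ⟨a, b, c, ⟨p, q, r, h0, h1, h2⟩, K, hK⟩ := red2_8 w
    have h := chk4_2 a b c (by
      intro hh
      apply hE
      unfold E2
      omega) (by omega)
    have e0 : (A420 w) ↔ ((3 * a.val + 2 * c.val) % 4 = 0 ∧ (3 * a.val + 2 * b.val) % 4 = 0 ∧ (2 * b.val + 2 * c.val) % 4 = 0) := by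
      unfold A420; omega
    have e1 : (A421 w) ↔ ((3 * a.val + 2 * b.val + 3 * c.val) % 4 = 0 ∧ (3 * a.val + 3 * c.val) % 4 = 0 ∧ (2 * b.val) % 4 = 0) := by
      unfold A421; omega
    have e2 : (A422 w) ↔ ((a.val + b.val + 2 * c.val) % 4 = 0 ∧ (a.val + b.val) % 4 = 0 ∧ (2 * c.val) % 4 = 0) := by
      unfold A422; omega
    simp only [e0, e1, e2]
    rw [h]
    ring

theorem sum4_2 {n : ℕ} (hn : n % 4 = 3) :
    ((vec1 n).card : ℤ) + ((vec1 n).card : ℤ) + ((vec1 n).card : ℤ) = (vec2 (4 * n)).card + ep2 n * (vec2 n).card := by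
  have h : ∑ w ∈ vec2 (4 * n), ((if A420 w then (1 : ℤ) else 0) + (if A421 w then (1 : ℤ) else 0) + (if A422 w then (1 : ℤ) else 0)) =
      ∑ w ∈ vec2 (4 * n), (1 + ep2 n * (if E2 w then 1 else 0)) :=
    sum_congr rfl fun w hw => pt4_2 hn ((mem_vec2 _ w).1 hw)
  rw [sum_add_distrib, sum_add_distrib, c420, c421, c422, sum_add_distrib, ← mul_sum,
    card_E2 (mem_vec2 n) (mem_vec2 (4 * n)) (fun v => by unfold ip2; ring)] at h
  rw [h]
  simp

theorem pt9_2 {n : ℕ} (hn : ¬ 3 ∣ n) {w : V3} (hw : ip2 w w = 9 * n) :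
    (if A920 w then (1 : ℤ) else 0) + (if A921 w then (1 : ℤ) else 0) + (if A922 w then (1 : ℤ) else 0) + (if A923 w then (1 : ℤ) else 0) = 1 + (if n % 3 = 2 then 1 else -1) * (if E3 w then 1 else 0) := by
  by_cases hE : E3 w
  · rw [if_pos hE]
    obtain ⟨v, hv0, hv1, hv2⟩ : ∃ v : V3, w 0 = 3 * v 0 ∧ w 1 = 3 * v 1 ∧ w 2 = 3 * v 2 := by
      obtain ⟨⟨x, hx⟩, ⟨y, hy⟩, ⟨z, hz⟩⟩ := hE
      exact ⟨![x, y, z], hx, hy, hz⟩
    have hv : ip2 v v = n := by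
      unfold ip2 at hw ⊢
      rw [hv0, hv1, hv2] at hw
      linarith
    obtain ⟨a, b, c, ⟨p, q, r, h0, h1, h2⟩, K, hK⟩ := red2_3 v
    have h := chk9e_2 a b c (by omega)
    have e0 : (A920 w) ↔ ((a.val + 2 * b.val) % 3 = 0 ∧ (2 * a.val + b.val) % 3 = 0) := by
      unfold A920; omega
    have e1 : (A921 w) ↔ ((2 * a.val + c.val) % 3 = 0 ∧ (a.val + 2 * c.val) % 3 = 0) := by
      unfold A921; omega
    have e2 : (A922 w) ↔ ((a.val) % 3 = 0 ∧ (2 * a.val) % 3 = 0) := by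
      unfold A922; omega
    have e3 : (A923 w) ↔ ((2 * b.val + 2 * c.val) % 3 = 0) := by
      unfold A923; omega
    simp only [e0, e1, e2, e3]
    rw [h]
    have e9 : ((2 * (b.val * b.val) + 2 * (c.val * c.val) + 1 * (a.val * b.val) + 1 * (a.val * c.val) + 2 * (b.val * c.val)) % 3 = 2) ↔ n % 3 = 2 := by omega
    simp only [e9]
    ring
  · rw [if_neg hE]
    obtain ⟨a, b, c, ⟨p, q, r, h0, h1, h2⟩, K, hK⟩ := red2_9 w
    have h := chk9_2 a b c (by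
      intro hh
      apply hE
      unfold E3
      omega) (by omega)
    have e0 : (A920 w) ↔ ((7 * a.val + 8 * b.val) % 9 = 0 ∧ (8 * a.val + 4 * b.val + 6 * c.val) % 9 = 0 ∧ (6 * c.val) % 9 = 0) := by
      unfold A920; omega
    have e1 : (A921 w) ↔ ((2 * a.val + c.val) % 9 = 0 ∧ (a.val + 3 * b.val + 5 * c.val) % 9 = 0 ∧ (3 * b.val) % 9 = 0) := by
      unfold A921; omega
    have e2 : (A922 w) ↔ ((7 * a.val + 3 * c.val) % 9 = 0 ∧ (8 * a.val + 6 * b.val) % 9 = 0 ∧ (6 * b.val + 3 * c.val) % 9 = 0) := by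
      unfold A922; omega
    have e3 : (A923 w) ↔ ((6 * a.val + 2 * b.val + 2 * c.val) % 9 = 0 ∧ (3 * c.val) % 9 = 0 ∧ (3 * b.val) % 9 = 0) := by
      unfold A923; omega
    simp only [e0, e1, e2, e3]
    rw [h]
    ring

theorem sum9_2 {n : ℕ} (hn : ¬ 3 ∣ n) :
    ((vec1 n).card : ℤ) + ((vec1 n).card : ℤ) + ((vec1 n).card : ℤ) + ((vec2 n).card : ℤ) = (vec2 (9 * n)).card +
      (if n % 3 = 2 then 1 else -1) * (vec2 n).card := by
  have h : ∑ w ∈ vec2 (9 * n), ((if A920 w then (1 : ℤ) else 0) + (if A921 w then (1 : ℤ) else 0) + (if A922 w then (1 : ℤ) else 0) + (if A923 w then (1 : ℤ) else 0)) =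
      ∑ w ∈ vec2 (9 * n), (1 + (if n % 3 = 2 then 1 else -1) * (if E3 w then 1 else 0)) :=
    sum_congr rfl fun w hw => pt9_2 hn ((mem_vec2 _ w).1 hw)
  rw [sum_add_distrib, sum_add_distrib, sum_add_distrib, c920, c921, c922, c923, sum_add_distrib, ← mul_sum,
    card_E3 (mem_vec2 n) (mem_vec2 (9 * n)) (fun v => by unfold ip2; ring)] at h
  rw [h]
  simp

/-- HE2 -/
theorem t_HE2 : S_HE2 := by
  intro n h4 _
  have h1 := sum4_1 h4
  have h2 := sum4_2 h4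
  unfold rr cc
  constructor
  · linear_combination (-3) * h1 - h2
  · linear_combination (-1) * h1 + h2

/-- HE3 -/
theorem t_HE3 : S_HE3 := by
  intro n h4 _ h3
  have h1 := sum9_1 h3
  have h2 := sum9_2 h3
  have hJ : jacobiSym (-(n : ℤ)) 3 = if n % 3 = 2 then 1 else -1 := by
    split_ifs with h
    · have h0 : (-(n : ℤ)) % ((3 : ℕ) : ℤ) = 1 := by omega
      rw [jacobiSym.mod_left, h0]
      norm_num
    · have h0 : (-(n : ℤ)) % ((3 : ℕ) : ℤ) = 2 := by omega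
      rw [jacobiSym.mod_left, h0]
      norm_num
  rw [← hJ] at h1 h2
  unfold rr cc
  constructor
  · linear_combination (-3) * h1 - h2
  · linear_combination (-1) * h1 + h2

end Pool.Agent.N575.P17
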