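import Mathlib
import Pool.Agent.N972.P17.Defs2
import Pool.Agent.N575.P17.HE

/-!
# The Hecke relations at `2` and `3` for the two ternary forms of level `17`, even norms
-/

set_option autoImplicit false
set_option linter.all false

namespace Pool.Agent.N575.P17

open Finset
open Pool.Agent.N969.P15 (V3 ep2)
open Pool.Agent.N972.P17 (ip1 ip2 vec1 vec2 rr cc S_HE2E S_HE3E)
open Pool.Agent.N575.P15 (ext3)

theorem chk4r_1 : ∀ a b c : Fin 8, ¬ (a.val % 2 = 0 ∧ b.val % 2 = 0 ∧ c.val % 2 = 0) →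
    (7 * (a.val * a.val) + 11 * (b.val * b.val) + 4 * (c.val * c.val) + 10 * (a.val * b.val) + 12 * (a.val * c.val) + 8 * (b.val * c.val)) % 16 = 0 →
    (if (2 * a.val + b.val + 3 * c.val) % 4 = 0 ∧ (b.val + c.val) % 4 = 0 ∧ (3 * b.val + 3 * c.val) % 4 = 0 then (1 : ℤ) else 0)
    + (if (2 * a.val + 2 * b.val) % 4 = 0 ∧ (2 * b.val) % 4 = 0 ∧ (b.val + 2 * c.val) % 4 = 0 then (1 : ℤ) else 0)
    + (if (3 * a.val + b.val + c.val) % 4 = 0 ∧ (2 * c.val) % 4 = 0 ∧ (a.val + 3 * b.val + 3 * c.val) % 4 = 0 then (1 : ℤ) else 0) = 1 := by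
  decide

theorem chk4s_1 : ∀ a b c : Fin 8, ((7 * (a.val * a.val) + 11 * (b.val * b.val) + 4 * (c.val * c.val) + 10 * (a.val * b.val) + 12 * (a.val * c.val) + 8 * (b.val * c.val)) % 16 = 4 ∨
    (7 * (a.val * a.val) + 11 * (b.val * b.val) + 4 * (c.val * c.val) + 10 * (a.val * b.val) + 12 * (a.val * c.val) + 8 * (b.val * c.val)) % 16 = 8) →
    (if (b.val + c.val) % 2 = 0 then (1 : ℤ) else 0)
    + (if (b.val) % 2 = 0 then (1 : ℤ) else 0)
    + (if (a.val + b.val + c.val) % 2 = 0 then (1 : ℤ) else 0) = 1 := by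
  decide

theorem pt4e_1 {n : ℤ} (hn : n % 16 = 4 ∨ n % 16 = 8) {w : V3} (hw : ip1 w w = 4 * n) :
    (if A410 w then (1 : ℤ) else 0) + (if A411 w then (1 : ℤ) else 0) + (if A412 w then (1 : ℤ) else 0) = 1 := by
  by_cases hE : E2 w
  · obtain ⟨v, hv0, hv1, hv2⟩ : ∃ v : V3, w 0 = 2 * v 0 ∧ w 1 = 2 * v 1 ∧ w 2 = 2 * v 2 := by
      obtain ⟨⟨x, hx⟩, ⟨y, hy⟩, ⟨z, hz⟩⟩ := hE
      exact ⟨![x, y, z], hx, hy, hz⟩
    have hv : ip1 v v = n := by
      unfold ip1 at hw ⊢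
      rw [hv0, hv1, hv2] at hw
      linarith
    obtain ⟨a, b, c, ⟨p, q, r, h0, h1, h2⟩, K, hK⟩ := red1_8 v
    have h := chk4s_1 a b c (by omega)
    have e0 : (A410 w) ↔ ((b.val + c.val) % 2 = 0) := by
      unfold A410; omega
    have e1 : (A411 w) ↔ ((b.val) % 2 = 0) := by
      unfold A411; omega
    have e2 : (A412 w) ↔ ((a.val + b.val + c.val) % 2 = 0) := by
      unfold A412; omega
    simp only [e0, e1, e2]
    exact h
  · obtain ⟨a, b, c, ⟨p, q, r, h0, h1, h2⟩, K, hK⟩ := red1_8 w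
    have h := chk4r_1 a b c (by
      intro hh
      apply hE
      unfold E2
      omega) (by omega)
    have e0 : (A410 w) ↔ ((2 * a.val + b.val + 3 * c.val) % 4 = 0 ∧ (b.val + c.val) % 4 = 0 ∧ (3 * b.val + 3 * c.val) % 4 = 0) := by
      unfold A410; omega
    have e1 : (A411 w) ↔ ((2 * a.val + 2 * b.val) % 4 = 0 ∧ (2 * b.val) % 4 = 0 ∧ (b.val + 2 * c.val) % 4 = 0) := by
      unfold A411; omega
    have e2 : (A412 w) ↔ ((3 * a.val + b.val + c.val) % 4 = 0 ∧ (2 * c.val) % 4 = 0 ∧ (a.val + 3 * b.val + 3 * c.val) % 4 = 0) := by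
      unfold A412; omega
    simp only [e0, e1, e2]
    exact h

theorem sum4e_1 {n : ℤ} (hn : n % 16 = 4 ∨ n % 16 = 8) :
    ((vec1 n).card : ℤ) + ((vec1 n).card : ℤ) + ((vec2 n).card : ℤ) = (vec1 (4 * n)).card := by
  have h : ∑ w ∈ vec1 (4 * n), ((if A410 w then (1 : ℤ) else 0) + (if A411 w then (1 : ℤ) else 0) + (if A412 w then (1 : ℤ) else 0)) = ∑ w ∈ vec1 (4 * n), (1 : ℤ) :=
    sum_congr rfl fun w hw => pt4e_1 hn ((mem_vec1 _ w).1 hw)
  rw [sum_add_distrib, sum_add_distrib, c410, c411, c412] at h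
  rw [h]
  simp

theorem chk4r_2 : ∀ a b c : Fin 8, ¬ (a.val % 2 = 0 ∧ b.val % 2 = 0 ∧ c.val % 2 = 0) →
    (3 * (a.val * a.val) + 7 * (b.val * b.val) + 7 * (c.val * c.val) + 14 * (a.val * b.val) + 14 * (a.val * c.val) + 10 * (b.val * c.val)) % 16 = 0 →
    (if (3 * a.val + 2 * c.val) % 4 = 0 ∧ (3 * a.val + 2 * b.val) % 4 = 0 ∧ (2 * b.val + 2 * c.val) % 4 = 0 then (1 : ℤ) else 0)
    + (if (3 * a.val + 2 * b.val + 3 * c.val) % 4 = 0 ∧ (3 * a.val + 3 * c.val) % 4 = 0 ∧ (2 * b.val) % 4 = 0 then (1 : ℤ) else 0)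
    + (if (a.val + b.val + 2 * c.val) % 4 = 0 ∧ (a.val + b.val) % 4 = 0 ∧ (2 * c.val) % 4 = 0 then (1 : ℤ) else 0) = 1 := by
  decide

theorem chk4s_2 : ∀ a b c : Fin 8, ((3 * (a.val * a.val) + 7 * (b.val * b.val) + 7 * (c.val * c.val) + 14 * (a.val * b.val) + 14 * (a.val * c.val) + 10 * (b.val * c.val)) % 16 = 4 ∨
    (3 * (a.val * a.val) + 7 * (b.val * b.val) + 7 * (c.val * c.val) + 14 * (a.val * b.val) + 14 * (a.val * c.val) + 10 * (b.val * c.val)) % 16 = 8) →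
    (if (a.val) % 2 = 0 then (1 : ℤ) else 0)
    + (if (a.val + c.val) % 2 = 0 then (1 : ℤ) else 0)
    + (if (a.val + b.val) % 2 = 0 then (1 : ℤ) else 0) = 1 := by
  decide

theorem pt4e_2 {n : ℤ} (hn : n % 16 = 4 ∨ n % 16 = 8) {w : V3} (hw : ip2 w w = 4 * n) :
    (if A420 w then (1 : ℤ) else 0) + (if A421 w then (1 : ℤ) else 0) + (if A422 w then (1 : ℤ) else 0) = 1 := by
  by_cases hE : E2 w
  · obtain ⟨v, hv0, hv1, hv2⟩ : ∃ v : V3, w 0 = 2 * v 0 ∧ w 1 = 2 * v 1 ∧ w 2 = 2 * v 2 := by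
      obtain ⟨⟨x, hx⟩, ⟨y, hy⟩, ⟨z, hz⟩⟩ := hE
      exact ⟨![x, y, z], hx, hy, hz⟩
    have hv : ip2 v v = n := by
      unfold ip2 at hw ⊢
      rw [hv0, hv1, hv2] at hw
      linarith
    obtain ⟨a, b, c, ⟨p, q, r, h0, h1, h2⟩, K, hK⟩ := red2_8 v
    have h := chk4s_2 a b c (by omega)
    have e0 : (A420 w) ↔ ((a.val) % 2 = 0) := by
      unfold A420; omega
    have e1 : (A421 w) ↔ ((a.val + c.val) % 2 = 0) := by
      unfold A421; omega
    have e2 : (A422 w) ↔ ((a.val + b.val) % 2 = 0) := by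
      unfold A422; omega
    simp only [e0, e1, e2]
    exact h
  · obtain ⟨a, b, c, ⟨p, q, r, h0, h1, h2⟩, K, hK⟩ := red2_8 w
    have h := chk4r_2 a b c (by
      intro hh
      apply hE
      unfold E2
      omega) (by omega)
    have e0 : (A420 w) ↔ ((3 * a.val + 2 * c.val) % 4 = 0 ∧ (3 * a.val + 2 * b.val) % 4 = 0 ∧ (2 * b.val + 2 * c.val) % 4 = 0) := by
      unfold A420; omega
    have e1 : (A421 w) ↔ ((3 * a.val + 2 * b.val + 3 * c.val) % 4 = 0 ∧ (3 * a.val + 3 * c.val) % 4 = 0 ∧ (2 * b.val) % 4 = 0) := by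
      unfold A421; omega
    have e2 : (A422 w) ↔ ((a.val + b.val + 2 * c.val) % 4 = 0 ∧ (a.val + b.val) % 4 = 0 ∧ (2 * c.val) % 4 = 0) := by
      unfold A422; omega
    simp only [e0, e1, e2]
    exact h

theorem sum4e_2 {n : ℤ} (hn : n % 16 = 4 ∨ n % 16 = 8) :
    ((vec1 n).card : ℤ) + ((vec1 n).card : ℤ) + ((vec1 n).card : ℤ) = (vec2 (4 * n)).card := by
  have h : ∑ w ∈ vec2 (4 * n), ((if A420 w then (1 : ℤ) else 0) + (if A421 w then (1 : ℤ) else 0) + (if A422 w then (1 : ℤ) else 0)) = ∑ w ∈ vec2 (4 * n), (1 : ℤ) :=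
    sum_congr rfl fun w hw => pt4e_2 hn ((mem_vec2 _ w).1 hw)
  rw [sum_add_distrib, sum_add_distrib, c420, c421, c422] at h
  rw [h]
  simp

/-- HE2E -/
theorem t_HE2E : S_HE2E := by
  intro m h4 _
  have hn : (4 * (m : ℤ)) % 16 = 4 ∨ (4 * (m : ℤ)) % 16 = 8 := by omega
  have h1 := sum4e_1 hn
  have h2 := sum4e_2 hn
  have e16 : 4 * (4 * (m : ℤ)) = 16 * (m : ℤ) := by ring
  rw [e16] at h1 h2
  unfold rr cc
  constructor
  · linear_combination (-3) * h1 - h2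
  · linear_combination (-1) * h1 + h2

/-- HE3E -/
theorem t_HE3E : S_HE3E := by
  intro m _ h3
  have h3' : ¬ 3 ∣ 4 * m := by omega
  have h1 := sum9_1 h3'
  have h2 := sum9_2 h3'
  have hJ : jacobiSym (-(m : ℤ)) 3 = if (4 * m) % 3 = 2 then 1 else -1 := by
    split_ifs with h
    · have h0 : (-(m : ℤ)) % ((3 : ℕ) : ℤ) = 1 := by omega
      rw [jacobiSym.mod_left, h0]
      norm_num
    · have h0 : (-(m : ℤ)) % ((3 : ℕ) : ℤ) = 2 := by omega
      rw [jacobiSym.mod_left, h0]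
      norm_num
  rw [← hJ] at h1 h2
  push_cast at h1 h2
  unfold rr cc
  constructor
  · linear_combination (-3) * h1 - h2
  · linear_combination (-1) * h1 + h2

end Pool.Agent.N575.P17
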